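import Pool.Agent.H55R3.SIS.Cond

/-!
# The chain condition
-/

set_option autoImplicit false

namespace Pool.Agent.H55R3.SIS

open Cardinal Ordinal Set
open Pool.Agent.Helper980.Polar (Lam exists_bound exists_rec mk_Iio_le mk_Iic_le mk_Lam
  mk_Iio_ord_lt)
open Pool.Agent.Helper980.Prikry (exists_split exists_choice exists_cover power_facts)

variable {mu : Cardinal.{0}} {C : Type}

/-- The possible traces of a condition below `γ`, coded with the index set `m`. -/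
def Code (m : Type) (C : Type) (γ : S mu) : Type := (m → Iic γ) × (m → Bool) × (m → m → C)

/-- the condition `q` has the trace coded by `l` -/
def Real (m : Type) (γ : S mu) (l : Code m C γ) (q : Cond mu C) : Prop :=
  (∀ x, (x ∈ q.a ∧ x < γ) ↔ ∃ i, l.2.1 i = true ∧ (l.1 i).1 = x) ∧
  ∀ i j, l.2.1 i = true → l.2.1 j = true → q.g (l.1 i).1 (l.1 j).1 = l.2.2 i j

theorem exists_code (m : Type) (hm : #m = mu) (γ : S mu) (q : Cond mu C) :
    ∃ l : Code m C γ, Real m γ l q := by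
  classical
  have : Nonempty (Iic γ) := ⟨⟨γ, mem_Iic.2 le_rfl⟩⟩
  obtain ⟨e, he⟩ := exists_cover (X := Iic γ) (m := m) {x : Iic γ | x.1 ∈ q.a} (by
    rw [hm]
    refine le_trans ?_ q.ha
    refine mk_le_of_injective (f := fun x : {x : Iic γ | x.1 ∈ q.a} => (⟨x.1.1, x.2⟩ : q.a)) ?_
    intro x y hxy
    have h : x.1.1 = y.1.1 := congrArg (fun z : q.a => z.1) hxy
    exact Subtype.ext (Subtype.ext h))
  refine ⟨(e, fun i => decide ((e i).1 ∈ q.a ∧ (e i).1 < γ), fun i j => q.g (e i).1 (e j).1),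
    fun x => ⟨?_, ?_⟩, fun i j _ _ => rfl⟩
  · rintro ⟨hx, hxγ⟩
    obtain ⟨i, hi⟩ := he (show (⟨x, hxγ.le⟩ : Iic γ) ∈ {x : Iic γ | x.1 ∈ q.a} from hx)
    refine ⟨i, ?_, ?_⟩
    · simp only [hi, decide_eq_true_eq]
      exact ⟨hx, hxγ⟩
    · simp only [hi]
  · rintro ⟨i, hi, rfl⟩
    simpa using hi

theorem mk_code (h0 : ℵ₀ ≤ mu) (hC : #C ≤ mu) (h2 : 2 ^ mu = Order.succ mu) (m : Type)
    (hm : #m = mu) (γ : S mu) : #(Code m C γ) ≤ Order.succ mu := by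
  obtain ⟨hp1, hp2⟩ := power_facts h0 h2
  have hs0 : ℵ₀ ≤ Order.succ mu := h0.trans (Order.le_succ mu)
  have h3 : #(m → Iic γ) ≤ Order.succ mu := by
    have h5 : #(m → Iic γ) = #(Iic γ) ^ #m := by simp
    rw [h5, hm]
    exact (power_le_power_right (mk_Iic_le hs0 γ)).trans hp1.le
  have h4 : #(m → Bool) ≤ Order.succ mu := by
    have h5 : #(m → Bool) = 2 ^ #m := by simp
    rw [h5, hm, h2]
  have h6 : #(m → m → C) ≤ Order.succ mu := by
    have h5 : #(m → m → C) = (#C ^ #m) ^ #m := by simp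
    rw [h5, hm, ← power_mul, mul_eq_self h0]
    exact (power_le_power_right hC).trans hp2.le
  show #((m → Iic γ) × (m → Bool) × (m → m → C)) ≤ Order.succ mu
  have h5 : #((m → Iic γ) × (m → Bool) × (m → m → C)) =
      #(m → Iic γ) * (#(m → Bool) * #(m → m → C)) := by
    simp only [mk_prod, Cardinal.lift_id]
  rw [h5]
  exact mul_le_of_le hs0 h3 (mul_le_of_le hs0 h4 h6)

/-- the chain condition -/
theorem chain [Nonempty C] (h0 : ℵ₀ ≤ mu) (hC : #C ≤ mu) (h2 : 2 ^ mu = Order.succ mu)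
    (Z : Set (Cond mu C)) (hZ : ∀ p ∈ Z, ∀ q ∈ Z, p ≠ q → ¬ ∃ r, r ≤ p ∧ r ≤ q) :
    #Z ≤ Order.succ mu := by
  classical
  by_contra hbig
  rw [not_le] at hbig
  have hZne : Nonempty Z := by
    rw [← mk_ne_zero_iff]
    exact (bot_lt_of_lt hbig).ne'
  obtain ⟨p0⟩ := hZne
  have hs0 : ℵ₀ ≤ Order.succ mu := h0.trans (Order.le_succ mu)
  let m : Type := mu.ord.ToType
  have hm : #m = mu := by simp [m]
  have hΦ : ∀ (γ : S mu) (l : Code m C γ), ∃ q : Z, (∃ q' : Z, Real m γ l q'.1) →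
      Real m γ l q.1 := by
    intro γ l
    by_cases h : ∃ q' : Z, Real m γ l q'.1
    · exact ⟨h.choose, fun _ => h.choose_spec⟩
    · exact ⟨p0, fun h' => absurd h' h⟩
  choose Φ hΦ using hΦ
  have hb : ∀ γ : S mu, ∃ b : S mu, ∀ (l : Code m C γ), ∀ x ∈ (Φ γ l).1.a, x < b := by
    intro γ
    obtain ⟨b, hb⟩ := exists_bound hs0 (ι := Σ l : Code m C γ, (Φ γ l).1.a) (by
      rw [mk_sigma]
      refine (sum_le_mk_mul_iSup _).trans ?_
      exact mul_le_of_le hs0 (mk_code h0 hC h2 m hm γ)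
        (ciSup_le' fun l => ((Φ γ l).1.ha).trans (Order.le_succ mu))) (fun t => t.2.1)
    exact ⟨b, fun l x hx => hb ⟨l, ⟨x, hx⟩⟩⟩
  choose b hb using hb
  obtain ⟨s, hs⟩ := exists_rec (I := Lam mu) (X := S mu)
    (fun i f x => ∀ j (hj : j < i), b (f j hj) < x ∧ f j hj < x) (by
      intro i f _
      obtain ⟨c, hc⟩ := exists_bound hs0 (ι := Iio i) ((mk_Iio_le i).trans (Order.le_succ mu))
        (fun j => max (b (f j.1 j.2)) (f j.1 j.2))
      exact ⟨c, fun j hj => ⟨(le_max_left _ _).trans_lt (hc ⟨j, hj⟩),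
        (le_max_right _ _).trans_lt (hc ⟨j, hj⟩)⟩⟩)
  have hcard : #(⋃ i : Lam mu, range (Φ (s i)) : Set Z) ≤ Order.succ mu := by
    refine (mk_iUnion_le_sum_mk.trans (sum_le_mk_mul_iSup _)).trans ?_
    exact mul_le_of_le hs0 mk_Lam.le
      (ciSup_le' fun i => mk_range_le.trans (mk_code h0 hC h2 m hm (s i)))
  have hex : ∃ p : Z, p ∉ ⋃ i : Lam mu, range (Φ (s i)) := by
    by_contra hc
    push Not at hc
    rw [eq_univ_of_forall hc, mk_univ] at hcard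
    exact absurd hcard (not_le.2 hbig)
  obtain ⟨p, hp⟩ := hex
  have hi : ∀ x : {x // x ∈ p.1.a ∧ ∃ i, x < s i}, ∃ i, x.1 < s i := fun x => x.2.2
  choose ix hix using hi
  obtain ⟨k, hk⟩ := exists_bound h0 (ι := {x // x ∈ p.1.a ∧ ∃ i, x < s i}) (by
    refine le_trans ?_ p.1.ha
    exact mk_le_mk_of_subset (s := {x | x ∈ p.1.a ∧ ∃ i, x < s i}) (t := p.1.a)
      (fun x hx => hx.1)) ix
  obtain ⟨k', hk'⟩ := exists_bound h0 (ι := PUnit.{1})
    (by rw [mk_punit]; exact one_le_aleph0.trans h0) (fun _ => k)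
  have hkk : k < k' := hk' PUnit.unit
  have hD : ∀ x ∈ p.1.a, (∃ i, x < s i) → x < s k := by
    intro x hx hx'
    exact (hix ⟨x, hx, hx'⟩).trans (hs k _ (hk ⟨x, hx, hx'⟩)).2
  obtain ⟨l, hl⟩ := exists_code m hm (s k) p.1
  let q : Z := Φ (s k) l
  have hq : Real m (s k) l q.1 := hΦ (s k) l ⟨p, hl⟩
  have hqa : ∀ x ∈ q.1.a, x < s k' := fun x hx => (hb (s k) l x hx).trans (hs k' k hkk).1
  have hne : q ≠ p := fun h => hp (mem_iUnion.2 ⟨k, l, h⟩)
  have htr : ∀ x, x < s k → (x ∈ q.1.a ↔ x ∈ p.1.a) := by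
    intro x hx
    constructor
    · intro h
      exact ((hl.1 x).2 ((hq.1 x).1 ⟨h, hx⟩)).1
    · intro h
      exact ((hq.1 x).2 ((hl.1 x).1 ⟨h, hx⟩)).1
  have hcom : ∀ x ∈ q.1.a, x ∈ p.1.a → x < s k := fun x hx hx' => hD x hx' ⟨k', hqa x hx⟩
  refine hZ q.1 q.2 p.1 p.2 (fun h => hne (Subtype.ext h)) (amalgam h0 hC _ _ ?_ ?_ ?_)
  · intro x hx y hy hx' hy'
    obtain ⟨i, hi, hix⟩ := (hq.1 x).1 ⟨hx, hcom x hx hx'⟩
    obtain ⟨j, hj, hjy⟩ := (hq.1 y).1 ⟨hy, hcom y hy hy'⟩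
    have h5 := hq.2 i j hi hj
    have h6 := hl.2 i j hi hj
    rw [hix, hjy] at h5 h6
    rw [h5, h6]
  · intro x hx y hy hy'
    by_contra hc
    rw [not_lt] at hc
    have h5 : y < s k := hD y hy ⟨k', hc.trans_lt (hqa x hx)⟩
    exact hy' ((htr y h5).2 hy)
  · intro x hx hx' y hy hy'
    have h5 := hcom y hy hy'
    by_contra hc
    rw [not_lt] at hc
    exact hx' ((htr x (hc.trans_lt h5)).1 hx)

end Pool.Agent.H55R3.SIS
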