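import Pool.Agent.Helper980.Prikry.Forced

/-!
# A notion of forcing for the relation square in square

For an infinite cardinal `μ` with `2 ^ μ = μ⁺`, the conditions are colourings of the pairs of a set
of at most `μ` ordinals below `μ⁺⁺`, together with at most `μ` promises: a new ordinal `x` lying
below all elements of a promised set `B` must be joined to `B` by pairs of all colours.
-/

set_option autoImplicit false

namespace Pool.Agent.H55R3.SIS

open Cardinal Ordinal Set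
open Pool.Agent.Helper980.Polar (Lam exists_bound exists_rec mk_Iio_le mk_Iic_le mk_Lam
  mk_Iio_ord_lt)
open Pool.Agent.Helper980.Prikry (exists_split exists_choice exists_cover power_facts)

/-- the well-ordered set of the ordinals below `μ⁺⁺` -/
abbrev S (mu : Cardinal.{0}) : Type := Lam (Order.succ mu)

/-- The conditions: a set `a` of at most `μ` ordinals below `μ⁺⁺`, a function `g` (the colour of
the pair `x < y` of elements of `a` is `g x y`), and a set `pr` of at most `μ` promises, which are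
subsets of `a` with at least `μ` elements. -/
structure Cond (mu : Cardinal.{0}) (C : Type) : Type where
  a : Set (S mu)
  g : S mu → S mu → C
  pr : Set (Set (S mu))
  ha : #a ≤ mu
  hpr : #(pr) ≤ mu
  hB : ∀ B ∈ pr, B ⊆ a ∧ mu ≤ #B

variable {mu : Cardinal.{0}} {C : Type}

instance : Preorder (Cond mu C) where
  le q p := p.a ⊆ q.a ∧ p.pr ⊆ q.pr ∧ (∀ x ∈ p.a, ∀ y ∈ p.a, q.g x y = p.g x y) ∧
    ∀ B ∈ p.pr, ∀ x ∈ q.a, x ∉ p.a → (∀ y ∈ B, x < y) → ∀ c, ∃ y ∈ B, q.g x y = c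
  le_refl p := ⟨Subset.rfl, Subset.rfl, fun _ _ _ _ => rfl, fun _ _ _ h h' => absurd h h'⟩
  le_trans r q p h h' := by
    refine ⟨h'.1.trans h.1, h'.2.1.trans h.2.1, ?_, ?_⟩
    · intro x hx y hy
      rw [h.2.2.1 x (h'.1 hx) y (h'.1 hy), h'.2.2.1 x hx y hy]
    · intro B hB x hx hx' hlt c
      by_cases h3 : x ∈ q.a
      · obtain ⟨y, hy, hyc⟩ := h'.2.2.2 B hB x h3 hx' hlt c
        exact ⟨y, hy, by rw [h.2.2.1 x h3 y (h'.1 ((p.hB B hB).1 hy)), hyc]⟩
      · exact h.2.2.2 B (h'.2.1 hB) x hx h3 hlt c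

/-- Chains of length at most `μ` have lower bounds, with prescribed additional elements and
promises. -/
theorem lower [Nonempty C] (h0 : ℵ₀ ≤ mu) (hC : #C ≤ mu) {I : Type} [LinearOrder I] [Nonempty I]
    (hI : #I ≤ mu) (s : I → Cond mu C) (hs : ∀ i j, i ≤ j → s j ≤ s i)
    (A : Set (S mu)) (hA : #A ≤ mu) (Q : Set (Set (S mu))) (hQ : #Q ≤ mu)
    (hQA : ∀ B ∈ Q, B ⊆ A ∧ mu ≤ #B) :
    ∃ q : Cond mu C, (∀ i, q ≤ s i) ∧ A ⊆ q.a ∧ Q ⊆ q.pr := by
  classical
  have hpr : #(⋃ i, (s i).pr : Set (Set (S mu))) ≤ mu := by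
    refine (mk_iUnion_le_sum_mk.trans (sum_le_mk_mul_iSup _)).trans ?_
    exact mul_le_of_le h0 hI (ciSup_le' fun i => (s i).hpr)
  have ha : #(⋃ i, (s i).a : Set (S mu)) ≤ mu := by
    refine (mk_iUnion_le_sum_mk.trans (sum_le_mk_mul_iSup _)).trans ?_
    exact mul_le_of_le h0 hI (ciSup_le' fun i => (s i).ha)
  obtain ⟨g, hg⟩ := exists_split (C := C) h0 hC (⋃ i, (s i).pr) hpr (by
    intro B hB
    obtain ⟨i, hi⟩ := mem_iUnion.1 hB
    exact ((s i).hB B hi).2)
  let F : S mu → S mu → C := fun x y =>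
    if h : ∃ i, x ∈ (s i).a ∧ y ∈ (s i).a then (s h.choose).g x y else g y
  have hF : ∀ i x y, x ∈ (s i).a → y ∈ (s i).a → F x y = (s i).g x y := by
    intro i x y h1 h2
    have h : ∃ i, x ∈ (s i).a ∧ y ∈ (s i).a := ⟨i, h1, h2⟩
    have h3 : F x y = (s h.choose).g x y := dif_pos h
    rw [h3]
    rcases le_total i h.choose with h4 | h4
    · exact (hs _ _ h4).2.2.1 x h1 y h2
    · exact ((hs _ _ h4).2.2.1 x h.choose_spec.1 y h.choose_spec.2).symm
  let q : Cond mu C :=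
    { a := (⋃ i, (s i).a) ∪ A
      g := F
      pr := (⋃ i, (s i).pr) ∪ Q
      ha := (mk_union_le _ _).trans (add_le_of_le h0 ha hA)
      hpr := (mk_union_le _ _).trans (add_le_of_le h0 hpr hQ)
      hB := by
        rintro B (hB | hB)
        · obtain ⟨i, hi⟩ := mem_iUnion.1 hB
          exact ⟨(((s i).hB B hi).1.trans (subset_iUnion (fun i => (s i).a) i)).trans
            subset_union_left, ((s i).hB B hi).2⟩
        · exact ⟨(hQA B hB).1.trans subset_union_right, (hQA B hB).2⟩ }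
  have hqa : ∀ i, (s i).a ⊆ q.a := fun i =>
    (subset_iUnion (fun i => (s i).a) i).trans subset_union_left
  refine ⟨q, fun i => ?_, subset_union_right, subset_union_right⟩
  refine ⟨hqa i, (subset_iUnion (fun i => (s i).pr) i).trans subset_union_left, ?_, ?_⟩
  · intro x hx y hy
    exact hF i x y hx hy
  · intro B hB x hx hx' hlt c
    by_cases h : ∃ j, x ∈ (s j).a
    · obtain ⟨j, hj⟩ := h
      have hij : s j ≤ s i := by
        rcases le_total i j with h3 | h3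
        · exact hs _ _ h3
        · exact absurd ((hs _ _ h3).1 hj) hx'
      obtain ⟨y, hy, hyc⟩ := hij.2.2.2 B hB x hj hx' hlt c
      have hyj : y ∈ (s j).a := hij.1 (((s i).hB B hB).1 hy)
      refine ⟨y, hy, ?_⟩
      rw [show q.g x y = F x y from rfl, hF j x y hj hyj, hyc]
    · obtain ⟨y, hy, hyc⟩ := hg B (mem_iUnion.2 ⟨i, hB⟩) c
      refine ⟨y, hy, ?_⟩
      have h3 : F x y = g y := dif_neg (by
        rintro ⟨j, hj, _⟩
        exact h ⟨j, hj⟩)
      rw [show q.g x y = F x y from rfl, h3, hyc]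

/-- extend one condition -/
theorem extend [Nonempty C] (h0 : ℵ₀ ≤ mu) (hC : #C ≤ mu) (p : Cond mu C)
    (A : Set (S mu)) (hA : #A ≤ mu) (Q : Set (Set (S mu))) (hQ : #Q ≤ mu)
    (hQA : ∀ B ∈ Q, B ⊆ A ∧ mu ≤ #B) :
    ∃ q ≤ p, A ⊆ q.a ∧ Q ⊆ q.pr := by
  obtain ⟨q, h1, h2⟩ := lower h0 hC (I := PUnit.{1})
    (by rw [mk_punit]; exact one_le_aleph0.trans h0) (fun _ => p) (fun _ _ _ => le_rfl) A hA Q hQ
    hQA
  exact ⟨q, h1 PUnit.unit, h2⟩

/-- at most `μ` dense sets can be met -/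
theorem meet [Nonempty C] (h0 : ℵ₀ ≤ mu) (hC : #C ≤ mu) {ι : Type} (hι : #ι ≤ mu)
    (φ : ι → Set (Cond mu C)) (hd : ∀ n, ∀ p ∈ φ n, ∀ q ≤ p, q ∈ φ n) (p : Cond mu C)
    (h : ∀ n, ∀ q ≤ p, ∃ r ≤ q, r ∈ φ n) : ∃ q ≤ p, ∀ n, q ∈ φ n := by
  classical
  rcases isEmpty_or_nonempty ι with hE | hE
  · exact ⟨p, le_rfl, fun n => (hE.false n).elim⟩
  obtain ⟨e⟩ : Nonempty ((#ι).ord.ToType ≃ ι) := by
    rw [← Cardinal.eq]
    simp
  have : Nonempty (#ι).ord.ToType := ⟨e.symm (Classical.arbitrary ι)⟩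
  have low : ∀ {I : Type} [LinearOrder I] (s : I → Cond mu C), #I ≤ mu →
      (∀ i j, i ≤ j → s j ≤ s i) → (∀ i, s i ≤ p) → ∃ q ≤ p, ∀ i, q ≤ s i := by
    intro I _ s hI hs hp
    rcases isEmpty_or_nonempty I with hI' | hI'
    · exact ⟨p, le_rfl, fun i => (hI'.false i).elim⟩
    · obtain ⟨q, h1, _⟩ := lower h0 hC hI s hs ∅ (by simp) ∅ (by simp) (by simp)
      exact ⟨q, (h1 (Classical.arbitrary I)).trans (hp _), h1⟩
  obtain ⟨s, hs⟩ := exists_rec (I := (#ι).ord.ToType) (X := Cond mu C)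
    (fun i f x => x ≤ p ∧ (∀ j (hj : j < i), x ≤ f j hj) ∧ x ∈ φ (e i)) (by
      intro i f hf
      obtain ⟨q, hq, h1⟩ := low (I := Iio i) (fun j => f j.1 j.2)
        ((mk_Iio_ord_lt i).le.trans hι) (by
          rintro ⟨j, hj⟩ ⟨k, hk⟩ hjk
          rcases eq_or_lt_of_le (show j ≤ k from hjk) with h2 | h2
          · subst h2
            exact le_rfl
          · exact (hf k hk).2.1 j h2) (fun j => (hf j.1 j.2).1)
      obtain ⟨r, hr, hr'⟩ := h (e i) q hq
      exact ⟨r, hr.trans hq, fun j hj => hr.trans (h1 ⟨j, hj⟩), hr'⟩)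
  obtain ⟨q, hq, h1⟩ := low s (by simpa using hι) (by
    intro i j hij
    rcases eq_or_lt_of_le hij with h2 | h2
    · subst h2
      exact le_rfl
    · exact (hs j).2.1 i h2) (fun i => (hs i).1)
  refine ⟨q, hq, fun n => ?_⟩
  have h2 := hd _ _ (hs (e.symm n)).2.2 q (h1 _)
  rwa [e.apply_symm_apply] at h2

theorem nonempty_cond [Nonempty C] : Nonempty (Cond mu C) :=
  ⟨⟨∅, fun _ _ => Classical.arbitrary C, ∅, by simp, by simp, by simp⟩⟩

/-- Compatibility: two conditions which agree on their common part are compatible, if the common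
part is an initial segment of the first one and the other elements of the second one lie above all
elements of the first one. -/
theorem amalgam [Nonempty C] (h0 : ℵ₀ ≤ mu) (hC : #C ≤ mu) (p q : Cond mu C)
    (h1 : ∀ x ∈ p.a, ∀ y ∈ p.a, x ∈ q.a → y ∈ q.a → p.g x y = q.g x y)
    (h2 : ∀ x ∈ p.a, ∀ y ∈ q.a, y ∉ p.a → x < y)
    (h3 : ∀ x ∈ p.a, x ∉ q.a → ∀ y ∈ p.a, y ∈ q.a → y < x) : ∃ t, t ≤ p ∧ t ≤ q := by
  classical
  obtain ⟨h, hh⟩ := exists_split (C := C) h0 hC q.pr q.hpr (fun B hB => (q.hB B hB).2)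
  let t : Cond mu C :=
    { a := p.a ∪ q.a
      g := fun x y => if x ∈ p.a ∧ y ∈ p.a then p.g x y else
        if x ∈ q.a ∧ y ∈ q.a then q.g x y else h y
      pr := p.pr ∪ q.pr
      ha := (mk_union_le _ _).trans (add_le_of_le h0 p.ha q.ha)
      hpr := (mk_union_le _ _).trans (add_le_of_le h0 p.hpr q.hpr)
      hB := by
        rintro B (hB | hB)
        · exact ⟨(p.hB B hB).1.trans subset_union_left, (p.hB B hB).2⟩
        · exact ⟨(q.hB B hB).1.trans subset_union_right, (q.hB B hB).2⟩ }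
  have tg : ∀ x y, t.g x y = if x ∈ p.a ∧ y ∈ p.a then p.g x y else
        if x ∈ q.a ∧ y ∈ q.a then q.g x y else h y := fun _ _ => rfl
  refine ⟨t, ⟨subset_union_left, subset_union_left, ?_, ?_⟩,
    ⟨subset_union_right, subset_union_right, ?_, ?_⟩⟩
  · intro x hx y hy
    rw [tg, if_pos ⟨hx, hy⟩]
  · intro B hB x hx hx' hlt
    exfalso
    have hne : B.Nonempty := by
      rw [Set.nonempty_iff_ne_empty]
      rintro rfl
      have h4 := (p.hB _ hB).2
      rw [mk_eq_zero] at h4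
      exact absurd (h0.trans h4) (not_le.2 aleph0_pos)
    obtain ⟨y, hy⟩ := hne
    have h4 : x ∈ q.a := hx.resolve_left hx'
    exact lt_asymm (h2 y ((p.hB B hB).1 hy) x h4 hx') (hlt y hy)
  · intro x hx y hy
    rw [tg]
    by_cases h4 : x ∈ p.a ∧ y ∈ p.a
    · rw [if_pos h4]
      exact h1 x h4.1 y h4.2 hx hy
    · rw [if_neg h4, if_pos ⟨hx, hy⟩]
  · intro B hB x hx hx' hlt c
    have h4 : x ∈ p.a := hx.resolve_right hx'
    obtain ⟨y, hy, hyc⟩ := hh B hB c
    have h5 : y ∈ q.a := (q.hB B hB).1 hy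
    have h6 : y ∉ p.a := fun h6 => lt_asymm (h3 x h4 hx' y h6 h5) (hlt y hy)
    refine ⟨y, hy, ?_⟩
    rw [tg, if_neg (fun h => h6 h.2), if_neg (fun h => hx' h.1), hyc]

end Pool.Agent.H55R3.SIS
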